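import Pool.Agent.H49.WB.Syl
import Pool.Agent.H50.PSV.Count

set_option autoImplicit false

namespace Pool.Agent.H49.WB

open Subgroup Pool.Agent.H50.PSV
open scoped Classical

variable {A : Type} [Group A] [Finite A] {p : ℕ}

/-- The `x`-invariant `p`-subgroups of `G` strictly above `Q`. -/
noncomputable def PS (p : ℕ) (G : Subgroup A) (x : A) (Q : Subgroup A) : Finset (Subgroup A) :=
  (Set.toFinite {R : Subgroup A | IsPGroup p R ∧ Q < R ∧ R ≤ G ∧
    x ∈ normalizer (R : Set A)}).toFinset

theorem mem_PS {G : Subgroup A} {x : A} {Q R : Subgroup A} :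
    R ∈ PS p G x Q ↔ IsPGroup p R ∧ Q < R ∧ R ≤ G ∧ x ∈ normalizer (R : Set A) := by
  unfold PS
  rw [Set.Finite.mem_toFinset]
  rfl

/-- The `p`-subgroups of `G` strictly above `Q`. -/
noncomputable def PT (p : ℕ) (G : Subgroup A) (Q : Subgroup A) : Finset (Subgroup A) :=
  (Set.toFinite {R : Subgroup A | IsPGroup p R ∧ Q < R ∧ R ≤ G}).toFinset

theorem mem_PT {G Q R : Subgroup A} :
    R ∈ PT p G Q ↔ IsPGroup p R ∧ Q < R ∧ R ≤ G := by
  unfold PT
  rw [Set.Finite.mem_toFinset]
  rfl

/-- The elements of a subgroup. -/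
noncomputable def el (G : Subgroup A) : Finset A := (Set.toFinite (G : Set A)).toFinset

theorem mem_el {G : Subgroup A} {x : A} : x ∈ el G ↔ x ∈ G := by
  unfold el
  rw [Set.Finite.mem_toFinset]
  rfl

theorem card_el (G : Subgroup A) : (el G).card = Nat.card G := by
  unfold el
  rw [← Set.ncard_eq_toFinset_card]
  rfl

/-- The weighted number of elements of the normaliser. -/
noncomputable def Sm (p : ℕ) (G Q : Subgroup A) : ℤ :=
  ∑ x ∈ el (G ⊓ normalizer (Q : Set A)), (1 - chi (PS p G x Q))

theorem filter_PS {G : Subgroup A} {x : A} {Q R : Subgroup A} (hR : R ∈ PS p G x Q) :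
    (PS p G x Q).filter (fun T => R < T) = PS p G x R := by
  ext T
  rw [Finset.mem_filter, mem_PS, mem_PS]
  constructor
  · rintro ⟨⟨h1, _, h3, h4⟩, h5⟩
    exact ⟨h1, h5, h3, h4⟩
  · rintro ⟨h1, h2, h3, h4⟩
    exact ⟨⟨h1, (mem_PS.mp hR).2.1.trans h2, h3, h4⟩, h2⟩

variable [hp : Fact p.Prime]

theorem chi_PS_normalizer {G : Subgroup A} {x : A} {Q : Subgroup A}
    (hx : x ∈ normalizer (Q : Set A)) :
    chi (PS p G x Q) = chi (PS p (G ⊓ normalizer (Q : Set A)) x Q) := by
  apply chi_retract _ _ _ (fun R => R ⊓ normalizer (Q : Set A))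
  · intro R hR
    obtain ⟨h1, h2, h3, h4⟩ := mem_PS.mp hR
    refine ⟨mem_PS.mpr ⟨h1.to_le inf_le_left, grow h1 h2, inf_le_inf_right _ h3, ?_⟩,
      inf_le_left, ?_⟩
    · apply inf_normalizer_le_normalizer_inf
      exact ⟨h4, le_normalizer hx⟩
    · intro T hT hTR
      exact le_inf hTR ((mem_PS.mp hT).2.2.1.trans inf_le_right)
  · intro R hR
    obtain ⟨h1, h2, h3, h4⟩ := mem_PS.mp hR
    exact mem_PS.mpr ⟨h1, h2, h3.trans inf_le_left, h4⟩

theorem Sm_normalizer (G Q : Subgroup A) :
    Sm p G Q = Sm p (G ⊓ normalizer (Q : Set A)) Q := by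
  unfold Sm
  have h1 : G ⊓ normalizer (Q : Set A) ⊓ normalizer (Q : Set A) =
      G ⊓ normalizer (Q : Set A) := by
    rw [inf_assoc, inf_idem]
  rw [h1]
  apply Finset.sum_congr rfl
  intro x hx
  rw [chi_PS_normalizer (mem_el.mp hx).2]

omit hp in
theorem Sm_rec (G Q : Subgroup A) (h : G ≤ normalizer (Q : Set A)) :
    Sm p G Q = (Nat.card G : ℤ) - ∑ R ∈ PT p G Q, Sm p G R := by
  have h1 : G ⊓ normalizer (Q : Set A) = G := inf_eq_left.mpr h
  unfold Sm
  rw [h1, Finset.sum_sub_distrib, Finset.sum_const, card_el]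
  congr 1
  · simp
  · have h2 : ∀ x ∈ el G, chi (PS p G x Q) =
        ∑ R ∈ PT p G Q, if x ∈ normalizer (R : Set A) then (1 - chi (PS p G x R)) else 0 := by
      intro x _
      rw [chi_rec, ← Finset.sum_filter]
      have h3 : (PT p G Q).filter (fun R : Subgroup A => x ∈ normalizer (R : Set A)) =
          PS p G x Q := by
        ext R
        rw [Finset.mem_filter, mem_PT, mem_PS]
        tauto
      rw [h3]
      apply Finset.sum_congr rfl
      intro R hR
      rw [filter_PS hR]
    rw [Finset.sum_congr rfl h2, Finset.sum_comm]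
    apply Finset.sum_congr rfl
    intro R _
    rw [← Finset.sum_filter]
    apply Finset.sum_congr _ (fun _ _ => rfl)
    ext x
    rw [Finset.mem_filter, mem_el, mem_el, Subgroup.mem_inf]

theorem Sm_eq (n : ℕ) : ∀ (m : ℕ) (G Q : Subgroup A), Nat.card G ≤ n → Nat.card A - Nat.card Q ≤ m →
    IsPGroup p Q → Q ≤ G →
    Sm p G Q = if IsSyl p G Q then (Nat.card (G ⊓ normalizer (Q : Set A) : Subgroup A) : ℤ)
      else 0 := by
  induction n with
  | zero =>
    intro m G Q hG
    have : 0 < Nat.card G := Nat.card_pos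
    omega
  | succ n ihn =>
    intro m
    induction m with
    | zero =>
      intro G Q hG hm hQ hQG
      have h1 : Nat.card Q ≤ Nat.card A := Nat.card_le_card_of_injective Q.subtype Q.subtype_injective
      have h2 : Nat.card Q = Nat.card A := by omega
      have h3 : Q = ⊤ := Subgroup.eq_top_of_card_eq Q h2
      subst h3
      have h4 : G = ⊤ := top_le_iff.mp hQG
      subst h4
      have h5 : IsSyl p (⊤ : Subgroup A) ⊤ := by
        obtain ⟨R, _, hRS, hR⟩ := exists_syl hQ hQG
        rwa [top_le_iff.mp hR] at hRS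
      have h6 : PT p (⊤ : Subgroup A) ⊤ = ∅ := by
        rw [Finset.eq_empty_iff_forall_notMem]
        intro R hR
        exact absurd (mem_PT.mp hR).2.1 not_top_lt
      rw [if_pos h5, Sm_rec _ _ le_normalizer, h6, Finset.sum_empty,
        inf_eq_left.mpr le_normalizer]
      ring
    | succ m ihm =>
      intro G Q hG hm hQ hQG
      by_cases hN : G ≤ normalizer (Q : Set A)
      · rw [Sm_rec G Q hN]
        have h1 : ∀ R ∈ PT p G Q, Sm p G R =
            if IsSyl p G R then (Nat.card (G ⊓ normalizer (R : Set A) : Subgroup A) : ℤ)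
              else 0 := by
          intro R hR
          obtain ⟨h1, h2, h3⟩ := mem_PT.mp hR
          apply ihm G R hG _ h1 h3
          have h4 : Nat.card Q < Nat.card R := by
            by_contra hcon
            exact h2.ne (Subgroup.eq_of_le_of_card_ge h2.le (by omega))
          omega
        rw [Finset.sum_congr rfl h1, ← Finset.sum_filter, inf_eq_left.mpr hN]
        by_cases hS : IsSyl p G Q
        · rw [if_pos hS]
          have h2 : (PT p G Q).filter (fun R => IsSyl p G R) = ∅ := by
            rw [Finset.eq_empty_iff_forall_notMem]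
            intro R hR
            rw [Finset.mem_filter] at hR
            obtain ⟨h1, h2, h3⟩ := mem_PT.mp hR.1
            have h4 := hR.2.2
            rw [← hS.2] at h4
            exact h2.ne (Subgroup.eq_of_le_of_card_ge h2.le h4.le)
          rw [h2, Finset.sum_empty, sub_zero]
        · rw [if_neg hS]
          have h2 : (PT p G Q).filter (fun R => IsSyl p G R) = SylSet p G := by
            ext R
            rw [Finset.mem_filter, mem_PT, mem_SylSet]
            constructor
            · exact fun h => h.2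
            · intro h
              refine ⟨⟨h.isPGroup, ?_, h.1⟩, h⟩
              refine lt_of_le_of_ne (le_syl_of_normal hQ hQG hN h) ?_
              intro h3
              exact hS (h3 ▸ h)
          rw [h2]
          have h3 := sum_syl (p := p) G
          have h4 : ∑ R ∈ SylSet p G, (Nat.card (G ⊓ normalizer (R : Set A) : Subgroup A) : ℤ) =
              (Nat.card G : ℤ) := by
            rw [← h3]; push_cast; rfl
          rw [h4]
          ring
      · rw [Sm_normalizer]
        have hlt : Nat.card (G ⊓ normalizer (Q : Set A) : Subgroup A) < Nat.card G := by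
          by_contra hcon
          apply hN
          have h1 := Subgroup.eq_of_le_of_card_ge
            (inf_le_left : G ⊓ normalizer (Q : Set A) ≤ G) (by omega)
          rw [← h1]
          exact inf_le_right
        rw [ihn (Nat.card A - Nat.card Q) (G ⊓ normalizer (Q : Set A)) Q (by omega) le_rfl hQ
          (le_inf hQG le_normalizer)]
        have h1 : G ⊓ normalizer (Q : Set A) ⊓ normalizer (Q : Set A) =
            G ⊓ normalizer (Q : Set A) := by
          rw [inf_assoc, inf_idem]
        rw [h1]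
        by_cases hS : IsSyl p G Q
        · rw [if_pos hS, if_pos ((syl_normalizer hQ hQG).mpr hS)]
        · rw [if_neg hS, if_neg (fun h => hS ((syl_normalizer hQ hQG).mp h))]

/-- The `x`-invariant `p`-subgroups. -/
noncomputable def QS (p : ℕ) (x : A) : Finset (Subgroup A) :=
  (Set.toFinite {R : Subgroup A | IsPGroup p R ∧ x ∈ normalizer (R : Set A)}).toFinset

omit hp in
theorem mem_QS {x : A} {R : Subgroup A} :
    R ∈ QS p x ↔ IsPGroup p R ∧ x ∈ normalizer (R : Set A) := by
  unfold QS
  rw [Set.Finite.mem_toFinset]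
  rfl

omit [Finite A] in
theorem cj_eq_iff {x : A} {R : Subgroup A} : cj x R = R ↔ x ∈ normalizer (R : Set A) := by
  rw [Subgroup.mem_normalizer_iff'']
  constructor
  · intro h y
    constructor
    · intro hy
      rw [← h, mem_cj] at hy
      exact hy
    · intro hy
      rw [← h, mem_cj]
      exact hy
  · intro h
    ext y
    rw [mem_cj]
    exact (h y).symm

/-- The pairs are counted by the weights. -/
theorem weight_pair (x y : A) :
    ∑ R ∈ QS p x with y ∈ R, (1 - chi (PS p ⊤ x R)) =
      if IsPGroup p (conjSub x y) then 1 else 0 := by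
  have h0 : ∑ R ∈ QS p x with y ∈ R, (1 - chi (PS p ⊤ x R)) =
      chi ((QS p x).filter (fun R => y ∈ R)) := by
    rw [chi_rec ((QS p x).filter (fun R => y ∈ R))]
    apply Finset.sum_congr rfl
    intro R hR
    rw [Finset.mem_filter] at hR
    congr 2
    ext T
    rw [mem_PS, Finset.mem_filter, Finset.mem_filter, mem_QS]
    constructor
    · rintro ⟨h1, h2, _, h4⟩
      exact ⟨⟨⟨h1, h4⟩, h2.le hR.2⟩, h2⟩
    · rintro ⟨⟨⟨h1, h2⟩, _⟩, h4⟩
      exact ⟨h1, h4, le_top, h2⟩
  rw [h0]
  by_cases h : IsPGroup p (conjSub x y)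
  · rw [if_pos h]
    apply chi_least _ (conjSub x y)
    · rw [Finset.mem_filter, mem_QS]
      exact ⟨⟨h, cj_eq_iff.mp (cj_conjSub x y)⟩, mem_conjSub x y⟩
    · intro R hR
      rw [Finset.mem_filter, mem_QS] at hR
      exact conjSub_le (cj_eq_iff.mpr hR.1.2) hR.2
  · rw [if_neg h]
    have h1 : (QS p x).filter (fun R => y ∈ R) = ∅ := by
      rw [Finset.eq_empty_iff_forall_notMem]
      intro R hR
      rw [Finset.mem_filter, mem_QS] at hR
      exact h (hR.1.1.to_le (conjSub_le (cj_eq_iff.mpr hR.1.2) hR.2))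
    rw [h1, chi_empty]

/-- **The identity.** For every finite group `A` and every prime `p` the number of pairs `(x, y)`
for which the conjugates of `y` under the powers of `x` generate a `p`-group is `|A|` times the
order of a Sylow `p`-subgroup of `A`. -/
theorem num_pow (A : Type) [Group A] [Finite A] (p : ℕ) [hp : Fact p.Prime] :
    num (PPow p) A = Nat.card A * p ^ (Nat.card A).factorization p := by
  have := Fintype.ofFinite A
  have hnum : (num (PPow p) A : ℤ) = ∑ x : A, ∑ y : A,
      (if IsPGroup p (conjSub x y) then (1 : ℤ) else 0) := by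
    unfold num
    rw [Nat.card_eq_fintype_card, Fintype.card_subtype, ← Finset.sum_product',
      Finset.univ_product_univ, Finset.sum_boole]
    congr 2
    ext t
    simp only [Finset.mem_filter, Finset.mem_univ, true_and]
    exact IsPGroup.iff_card.symm
  have h1 : (num (PPow p) A : ℤ) = ∑ x : A, ∑ R ∈ QS p x,
      (Nat.card R : ℤ) * (1 - chi (PS p ⊤ x R)) := by
    rw [hnum]
    apply Finset.sum_congr rfl
    intro x _
    have h2 : ∀ y ∈ (Finset.univ : Finset A), (if IsPGroup p (conjSub x y) then (1 : ℤ) else 0) =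
        ∑ R ∈ QS p x, if y ∈ R then (1 - chi (PS p ⊤ x R)) else 0 := by
      intro y _
      rw [← weight_pair, Finset.sum_filter]
    rw [Finset.sum_congr rfl h2, Finset.sum_comm]
    apply Finset.sum_congr rfl
    intro R _
    rw [← Finset.sum_filter, Finset.sum_const, nsmul_eq_mul]
    congr 2
    rw [Nat.card_eq_fintype_card, Fintype.card_subtype]
  have h2 : ∀ x ∈ (Finset.univ : Finset A), ∑ R ∈ QS p x,
      (Nat.card R : ℤ) * (1 - chi (PS p ⊤ x R)) =
      ∑ R ∈ insert ⊥ (PT p (⊤ : Subgroup A) ⊥), if x ∈ normalizer (R : Set A) then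
        (Nat.card R : ℤ) * (1 - chi (PS p ⊤ x R)) else 0 := by
    intro x _
    rw [← Finset.sum_filter]
    apply Finset.sum_congr _ (fun _ _ => rfl)
    ext R
    rw [mem_QS, Finset.mem_filter, Finset.mem_insert, mem_PT]
    constructor
    · rintro ⟨h1, h2⟩
      refine ⟨?_, h2⟩
      by_cases h3 : R = ⊥
      · exact Or.inl h3
      · exact Or.inr ⟨h1, bot_lt_iff_ne_bot.mpr h3, le_top⟩
    · rintro ⟨h1 | ⟨h1, _, _⟩, h2⟩
      · subst h1
        exact ⟨IsPGroup.of_bot, h2⟩
      · exact ⟨h1, h2⟩
  rw [Finset.sum_congr rfl h2, Finset.sum_comm] at h1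
  have h3 : ∀ R ∈ insert ⊥ (PT p (⊤ : Subgroup A) ⊥), (∑ x : A,
      if x ∈ normalizer (R : Set A) then (Nat.card R : ℤ) * (1 - chi (PS p ⊤ x R)) else 0) =
      if IsSyl p ⊤ R then (p : ℤ) ^ (Nat.card A).factorization p *
        (Nat.card ((⊤ : Subgroup A) ⊓ normalizer (R : Set A) : Subgroup A) : ℤ) else 0 := by
    intro R hR
    have hRp : IsPGroup p R := by
      rcases Finset.mem_insert.mp hR with h | h
      · subst h; exact IsPGroup.of_bot
      · exact (mem_PT.mp h).1
    rw [← Finset.sum_filter, ← Finset.mul_sum]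
    have h4 : (∑ x ∈ (Finset.univ : Finset A) with x ∈ normalizer (R : Set A),
        (1 - chi (PS p ⊤ x R))) = Sm p ⊤ R := by
      unfold Sm
      apply Finset.sum_congr _ (fun _ _ => rfl)
      ext x
      rw [Finset.mem_filter, mem_el, Subgroup.mem_inf]
      simp
    rw [h4, Sm_eq (Nat.card (⊤ : Subgroup A)) (Nat.card A - Nat.card R) ⊤ R le_rfl le_rfl hRp
      le_top]
    split_ifs with h5
    · have h6 := h5.2
      rw [Subgroup.card_top] at h6
      rw [h6]
      push_cast
      ring
    · ring
  rw [Finset.sum_congr rfl h3, ← Finset.sum_filter, ← Finset.mul_sum] at h1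
  have h5 : (insert ⊥ (PT p (⊤ : Subgroup A) ⊥)).filter (fun R => IsSyl p ⊤ R) =
      SylSet p (⊤ : Subgroup A) := by
    ext R
    rw [Finset.mem_filter, Finset.mem_insert, mem_PT, mem_SylSet]
    constructor
    · exact fun h => h.2
    · intro h
      refine ⟨?_, h⟩
      by_cases h3 : R = ⊥
      · exact Or.inl h3
      · exact Or.inr ⟨h.isPGroup, bot_lt_iff_ne_bot.mpr h3, le_top⟩
  rw [h5] at h1
  have h6 := sum_syl (p := p) (⊤ : Subgroup A)
  have h7 : ∑ R ∈ SylSet p (⊤ : Subgroup A),
      (Nat.card ((⊤ : Subgroup A) ⊓ normalizer (R : Set A) : Subgroup A) : ℤ) =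
      (Nat.card A : ℤ) := by
    rw [← Subgroup.card_top (G := A), ← h6]; push_cast; rfl
  rw [h7] at h1
  have h8 : (num (PPow p) A : ℤ) = ((Nat.card A * p ^ (Nat.card A).factorization p : ℕ) : ℤ) := by
    rw [h1]; push_cast; ring
  exact_mod_cast h8

end Pool.Agent.H49.WB
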