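import Pool.Agent.H49.WB.SZ
import Pool.Agent.H49.WB.Idt

set_option autoImplicit false

namespace Pool.Agent.H49.WB

open Subgroup Function Pool.Agent.H50.PSV

/-- Orders prime to all members of `ρ`. -/
def PCop (ρ : Finset ℕ) (n : ℕ) : Prop := ∀ r ∈ ρ, Nat.Coprime r n

/-- Orders all of whose prime divisors are in `ρ`. -/
def POnly (ρ : Finset ℕ) (n : ℕ) : Prop := ∀ r : ℕ, r.Prime → r ∣ n → r ∈ ρ

/-- The `ρ`-part of a number. -/
def rp (ρ : Finset ℕ) (n : ℕ) : ℕ := ∏ r ∈ ρ, r ^ n.factorization r

theorem goodPCop (ρ : Finset ℕ) : GoodPi (PCop ρ) where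
  one := fun r _ => Nat.coprime_one_right r
  mul := fun _ _ ha hb r hr => Nat.Coprime.mul_right (ha r hr) (hb r hr)
  dvd := fun _ _ hab _ hb r hr => Nat.Coprime.coprime_dvd_right hab (hb r hr)

theorem rp_mul (ρ : Finset ℕ) {a b : ℕ} (ha : a ≠ 0) (hb : b ≠ 0) :
    rp ρ (a * b) = rp ρ a * rp ρ b := by
  unfold rp
  rw [← Finset.prod_mul_distrib]
  apply Finset.prod_congr rfl
  intro r _
  rw [Nat.factorization_mul ha hb, Finsupp.add_apply, pow_add]

theorem rp_cop (ρ : Finset ℕ) (hρ : ∀ r ∈ ρ, r.Prime) {n : ℕ} (hn : PCop ρ n) : rp ρ n = 1 := by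
  unfold rp
  apply Finset.prod_eq_one
  intro r hr
  rw [Nat.factorization_eq_zero_of_not_dvd, pow_zero]
  exact ((hρ r hr).coprime_iff_not_dvd).mp (hn r hr)

theorem rp_only (ρ : Finset ℕ) {n : ℕ} (h0 : n ≠ 0) (hn : POnly ρ n) : rp ρ n = n := by
  unfold rp
  conv_rhs => rw [← Nat.prod_factorization_pow_eq_self h0]
  unfold Finsupp.prod
  symm
  apply Finset.prod_subset
  · intro r hr
    rw [Nat.support_factorization] at hr
    exact hn r (Nat.prime_of_mem_primeFactors hr) (Nat.dvd_of_mem_primeFactors hr)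
  · intro r _ hr
    rw [Finsupp.notMem_support_iff.mp hr]
    exact pow_zero r

/-- The step for a kernel whose order involves only primes in `ρ`. -/
theorem num_step_only {A Q : Type} [Group A] [Group Q] [Finite A] [Finite Q] (ρ : Finset ℕ)
    (hρ : ∀ r ∈ ρ, r.Prime) (π : A →* Q)
    (hπ : Surjective π) (hN : POnly ρ (Nat.card π.ker))
    (h : (∀ a ∈ π.ker, ∀ b ∈ π.ker, a * b = b * a) ∨
      ∀ K : Subgroup Q, PCop ρ (Nat.card K) → Group.IsSolvable K) :
    num (PCop ρ) A = num (PCop ρ) Q * Nat.card π.ker := by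
  have hcop0 : ∀ a : ℕ, PCop ρ a → a.Coprime (Nat.card π.ker) := by
    intro a ha
    rw [Nat.coprime_iff_gcd_eq_one]
    by_contra hcon
    obtain ⟨r, hr, hrd⟩ := Nat.exists_prime_and_dvd hcon
    have h1 := (Nat.dvd_gcd_iff.mp hrd)
    have h2 := ha r (hN r hr h1.2)
    rw [hr.coprime_iff_not_dvd] at h2
    exact h2 h1.1
  apply num_step (goodPCop ρ) π
  intro xb yb hb
  have hcop : Nat.Coprime (Nat.card (π.ker.subgroupOf ((conjSub xb yb).comap π)))
      (π.ker.subgroupOf ((conjSub xb yb).comap π)).index := by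
    rw [card_subgroupOf_ker, index_subgroupOf_ker π hπ]
    exact (hcop0 _ hb).symm
  have ht := transfer π hπ (conjSub xb yb) ?_ ?_
  · exact count2 π hπ hcop0 xb yb hb ht.1 ht.2
  · exact Subgroup.exists_right_complement'_of_coprime hcop
  · intro K1 K2 h1 h2
    rcases h with h | h
    · have hcomm : IsMulCommutative (π.ker.subgroupOf ((conjSub xb yb).comap π)) :=
        ⟨⟨fun a b => Subtype.ext (Subtype.ext (h _ a.2 _ b.2))⟩⟩
      exact conj_of_abelian _ hcop K1 K2 h1 h2
    · have hsol := h (conjSub xb yb) hb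
      apply conj_solv _ _ _ le_rfl hcop _ K1 K2 (cm_of h1) (cm_of h2)
      let g : (conjSub xb yb).comap π →* conjSub xb yb :=
        { toFun := fun b => ⟨π b.1, b.2⟩
          map_one' := Subtype.ext (map_one π)
          map_mul' := fun a b => Subtype.ext (map_mul π _ _) }
      have hg : g.ker = π.ker.subgroupOf ((conjSub xb yb).comap π) := by
        ext b
        rw [MonoidHom.mem_ker, Subgroup.mem_subgroupOf, MonoidHom.mem_ker]
        constructor
        · exact fun h => congrArg Subtype.val h
        · exact fun h => Subtype.ext h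
      let f : ((conjSub xb yb).comap π ⧸ π.ker.subgroupOf ((conjSub xb yb).comap π)) →*
          conjSub xb yb := QuotientGroup.lift _ g (by rw [hg])
      apply Group.isSolvable_of_isSolvable_injective (f := f)
      rw [injective_iff_map_eq_one]
      intro y hy
      obtain ⟨b, rfl⟩ := QuotientGroup.mk'_surjective _ y
      have h3 : g b = 1 := hy
      rw [← MonoidHom.mem_ker, hg] at h3
      exact (QuotientGroup.eq_one_iff b).mpr h3

/-- **The count for the complementary cell.** -/
theorem num_cell (ρ : Finset ℕ) (hρ : ∀ r ∈ ρ, r.Prime) (C : ∀ (A : Type) [Group A], Prop)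
    (hC : IsPseudovariety C)
    (hs : ∀ (S : Type) [Group S], C S → IsSimpleGroup S →
      POnly ρ (Nat.card S) ∨ PCop ρ (Nat.card S))
    (hab : (∀ (S : Type) [Group S], C S → IsSimpleGroup S → POnly ρ (Nat.card S) →
        ∀ a b : S, a * b = b * a) ∨
      (∀ (S : Type) [Group S], C S → IsSimpleGroup S → PCop ρ (Nat.card S) →
        ∀ a b : S, a * b = b * a)) (n : ℕ) :
    ∀ (A : Type) [Group A], C A → Nat.card A ≤ n →
      num (PCop ρ) A * rp ρ (Nat.card A) = Nat.card A ^ 2 := by
  induction n with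
  | zero =>
    intro A _ hA hcard
    have := hC.fin A hA
    have := Nat.card_pos (α := A)
    omega
  | succ n ih =>
    intro A _ hA hcard
    have hfin := hC.fin A hA
    by_cases hss : Subsingleton A
    · rw [num_subsingleton (goodPCop ρ), Nat.card_of_subsingleton (1 : A),
        rp_cop ρ hρ (goodPCop ρ).one]
      norm_num
    · rw [not_subsingleton_iff_nontrivial] at hss
      obtain ⟨N, hNn, hNb, M, hM, hsimple, hdiv, hcomm⟩ := min_normal A
      have hCN : C N := hC.sub A N hA
      have hCS : C (N ⧸ M) := hC.image N (N ⧸ M) (QuotientGroup.mk' M)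
        (QuotientGroup.mk'_surjective M) hCN
      have hπ : Surjective (QuotientGroup.mk' N) := QuotientGroup.mk'_surjective N
      have hQ : C (A ⧸ N) := hC.image A (A ⧸ N) (QuotientGroup.mk' N) hπ hA
      have hfQ := hC.fin _ hQ
      have hker : (QuotientGroup.mk' N).ker = N := QuotientGroup.ker_mk' N
      have hcm : Nat.card A = Nat.card (A ⧸ N) * Nat.card N :=
        Subgroup.card_eq_card_quotient_mul_card_subgroup N
      have hN2 : 2 ≤ Nat.card N := by
        have h1 : Nat.card N ≠ 1 := fun h => hNb (Subgroup.card_eq_one.mp h)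
        have h2 : 0 < Nat.card N := Nat.card_pos
        omega
      have hQpos : 0 < Nat.card (A ⧸ N) := Nat.card_pos
      have hlt : Nat.card (A ⧸ N) ≤ n := by
        have : Nat.card (A ⧸ N) < Nat.card A := by rw [hcm]; nlinarith
        omega
      have hIH := ih (A ⧸ N) hQ hlt
      have hrp : rp ρ (Nat.card A) = rp ρ (Nat.card (A ⧸ N)) * rp ρ (Nat.card N) := by
        rw [hcm, rp_mul ρ (Nat.card_pos).ne' (Nat.card_pos).ne']
      rcases hs _ hCS hsimple with h1 | h1
      · have hN : POnly ρ (Nat.card N) := fun r hr hrd => h1 r hr (hdiv r hr hrd)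
        have e1 := num_step_only ρ hρ (QuotientGroup.mk' N) hπ (by rw [hker]; exact hN) (by
          rcases hab with h2 | h2
          · left
            rw [hker]
            exact hcomm (h2 _ hCS hsimple h1)
          · right
            intro K hK
            exact solvable_of C hC (PCop ρ) (goodPCop ρ) h2 _ K (hC.sub _ K hQ) hK le_rfl)
        rw [hker] at e1
        rw [e1, hrp, rp_only ρ (Nat.card_pos).ne' hN, hcm, mul_pow, ← hIH]
        ring
      · have hN : PCop ρ (Nat.card N) := by
          intro r hr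
          rw [(hρ r hr).coprime_iff_not_dvd]
          intro hrd
          have h2 := hdiv r (hρ r hr) hrd
          exact ((hρ r hr).coprime_iff_not_dvd.mp (h1 r hr)) h2
        have e1 := num_all (goodPCop ρ) (QuotientGroup.mk' N) hπ (by rw [hker]; exact hN)
        rw [hker] at e1
        rw [e1, hrp, rp_cop ρ hρ hN, hcm, mul_pow, ← hIH]
        ring

end Pool.Agent.H49.WB
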