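import Pool.Agent.H49.WB.Cell

set_option autoImplicit false

namespace Pool.Agent.H49.WB

open Function Pool.Agent.H50.PSV Pool.Agent.H21.Prof

/-- All members of a family of conditions. -/
def cndAll {I X : Type} (c : I → ∀ (A : Type) [Group A], (X → A) → Prop) :
    ∀ (A : Type) [Group A], (I × X → A) → Prop :=
  fun A _ t => ∀ i, c i A (fun x => t (i, x))

theorem condOK_all {I X : Type} {c : I → ∀ (A : Type) [Group A], (X → A) → Prop}
    (h : ∀ i, CondOK X (c i)) : CondOK (I × X) (cndAll c) where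
  one := fun A _ i => (h i).one A
  map := fun A B _ _ _ _ f _ ht i => (h i).map A B f _ (ht i)
  inj := fun A B _ _ _ _ f _ hf ht i => (h i).inj A B f _ hf (ht i)
  prod := fun A B _ _ _ _ _ _ ht hs i => (h i).prod A B _ _ (ht i) (hs i)

theorem card_cndAll {I X : Type} [Fintype I] (c : I → ∀ (A : Type) [Group A], (X → A) → Prop)
    (A : Type) [Group A] :
    Nat.card {t : I × X → A // cndAll c A t} = ∏ i, Nat.card {t : X → A // c i A t} := by
  have e : {t : I × X → A // cndAll c A t} ≃ ((i : I) → {t : X → A // c i A t}) :=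
    { toFun := fun t i => ⟨fun x => t.1 (i, x), t.2 i⟩
      invFun := fun s => ⟨fun y => (s y.1).1 y.2, fun i => (s i).2⟩
      left_inv := fun t => rfl
      right_inv := fun s => rfl }
  rw [Nat.card_congr e, Nat.card_pi]

/-- A general criterion: one cell `{p}` and the rest. -/
theorem nonfree_of {p : ℕ} (hp : p.Prime) {C : ∀ (A : Type) [Group A], Prop}
    (hC : IsPseudovariety C) {q : ℕ} (hq : q.Prime) (hqp : q ≠ p)
    (hCp : C (Multiplicative (ZMod p))) (hCq : C (Multiplicative (ZMod q)))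
    {Y : Type} (cY : ∀ (A : Type) [Group A], (Y → A) → Prop) (hY : CondOK Y cY) (m n : ℕ)
    (hcount : ∀ (A : Type) [Group A], C A →
      num (PPow p) A * Nat.card A ^ m * Nat.card {t : Y → A // cY A t} = Nat.card A ^ n) :
    NonFreeDecomp C n := by
  have : NeZero q := ⟨hq.ne_zero⟩
  have : NeZero p := ⟨hp.ne_zero⟩
  have hne : ∃ (A : Type) (_ : Group A), C A := ⟨Multiplicative (ZMod p), inferInstance, hCp⟩
  have h1 : CondOK (Fin 2 ⊕ Fin m) (cnd (PPow p) (Sum.inl 0) (Sum.inl 1)) :=
    condOK_cnd (goodPow hp) _ _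
  have h12 := condOK_sum h1 hY
  obtain ⟨iG, iH, hcop⟩ := coprod_Cp (C := C) hC hne h1 hY
  have hGp : ∀ (A : Type) [Group A], C A →
      hh (Cp C _ (cnd (PPow p) (Sum.inl (0 : Fin 2)) (Sum.inl 1 : Fin 2 ⊕ Fin m))) A =
        num (PPow p) A * Nat.card A ^ m := by
    intro A _ hA
    have := hC.fin A hA
    rw [hh_Cp hC h1 hne hA, card_cnd]
  have hHp : ∀ (A : Type) [Group A], C A →
      hh (Cp C Y cY) A = Nat.card {t : Y → A // cY A t} := by
    intro A _ hA
    rw [hh_Cp hC hY hne hA]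
  have hquot : ∀ l : ℕ, l.Prime → C (Multiplicative (ZMod l)) →
      ∀ (V : Subgroup (Multiplicative (ZMod l))) [V.Normal],
        C (Multiplicative (ZMod l) ⧸ V) := by
    intro l _ hl V _
    exact hC.image _ _ (QuotientGroup.mk' V) (QuotientGroup.mk'_surjective V) hl
  have hpp : PPow p p := ⟨1, by rw [pow_one]⟩
  have hpq : ¬ PPow p q := by
    rintro ⟨k, hk⟩
    rcases Nat.eq_zero_or_pos k with h0 | h0
    · rw [h0, pow_zero] at hk
      exact hq.one_lt.ne' hk
    · have h3 : p ∣ q := by rw [hk]; exact dvd_pow_self p h0.ne'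
      exact hqp ((Nat.prime_dvd_prime_iff_eq hp hq).mp h3).symm
  have e3 := hcount _ hCp
  have e4 := hcount _ hCq
  rw [(num_prime (goodPow hp) hp _ (card_mulZMod p)).1 hpp, card_mulZMod] at e3
  rw [(num_prime (goodPow hp) hq _ (card_mulZMod q)).2 hpq, card_mulZMod] at e4
  refine ⟨Cp C _ (cnd (PPow p) (Sum.inl (0 : Fin 2)) (Sum.inl 1 : Fin 2 ⊕ Fin m)),
    inferInstance, inferInstance, inferInstance, inferInstance, inferInstance, inferInstance,
    Cp C Y cY,
    inferInstance, inferInstance, inferInstance, inferInstance, inferInstance, inferInstance,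
    Cp C _ (cndSum (cnd (PPow p) (Sum.inl (0 : Fin 2)) (Sum.inl 1 : Fin 2 ⊕ Fin m)) cY),
    inferInstance, inferInstance, inferInstance, inferInstance, inferInstance, inferInstance,
    iG, iH, isPro_Cp hC h1 hne, isPro_Cp hC hY hne, isPro_Cp hC h12 hne, hcop, ?_, ?_, ?_⟩
  · apply isFreeIn_of_card hC (isPro_Cp hC h12 hne)
    intro A _ hA
    have hfA := hC.fin A hA
    rw [hh_Cp hC h12 hne hA, card_cndSum, card_cnd]
    exact hcount A hA
  · intro k hk
    have e1 := card_of_isFreeIn hk (A := Multiplicative (ZMod p)) (hquot p hp hCp)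
    have e2 := card_of_isFreeIn hk (A := Multiplicative (ZMod q)) (hquot q hq hCq)
    rw [hGp _ hCp, (num_prime (goodPow hp) hp _ (card_mulZMod p)).1 hpp, card_mulZMod,
      ← pow_add] at e1
    rw [hGp _ hCq, (num_prime (goodPow hp) hq _ (card_mulZMod q)).2 hpq, card_mulZMod,
      ← pow_succ'] at e2
    have e5 := Nat.pow_right_injective hp.two_le e1
    have e6 := Nat.pow_right_injective hq.two_le e2
    omega
  · intro k hk
    have e1 := card_of_isFreeIn hk (A := Multiplicative (ZMod p)) (hquot p hp hCp)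
    have e2 := card_of_isFreeIn hk (A := Multiplicative (ZMod q)) (hquot q hq hCq)
    rw [hHp _ hCp, card_mulZMod] at e1
    rw [hHp _ hCq, card_mulZMod] at e2
    rw [e1, ← pow_add, ← pow_add] at e3
    rw [e2, ← pow_succ', ← pow_add] at e4
    have e5 := Nat.pow_right_injective hp.two_le e3
    have e6 := Nat.pow_right_injective hq.two_le e4
    omega

/-- The condition for the single primes of a finite set. -/
def cR (σ : Finset ℕ) : ∀ (A : Type) [Group A], (σ × Fin 2 → A) → Prop :=
  cndAll (fun r : σ => cnd (PPow r.1) (0 : Fin 2) 1)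

theorem condOK_cR {σ : Finset ℕ} (hσ : ∀ r ∈ σ, r.Prime) : CondOK (σ × Fin 2) (cR σ) :=
  condOK_all (fun r => condOK_cnd (goodPow (hσ r.1 r.2)) _ _)

theorem card_cR {σ : Finset ℕ} (hσ : ∀ r ∈ σ, r.Prime) (A : Type) [Group A] [Finite A] :
    Nat.card {t : σ × Fin 2 → A // cR σ A t} = Nat.card A ^ σ.card * rp σ (Nat.card A) := by
  unfold cR
  rw [card_cndAll]
  have h1 : ∀ r : σ, Nat.card {t : Fin 2 → A // cnd (PPow r.1) 0 1 A t} =
      Nat.card A * r.1 ^ (Nat.card A).factorization r.1 := by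
    intro r
    have : Fact r.1.Prime := ⟨hσ r.1 r.2⟩
    rw [card_cnd2, num_pow]
  rw [Finset.prod_congr rfl (fun r _ => h1 r), Finset.prod_mul_distrib, Finset.prod_const,
    Finset.card_univ, Fintype.card_coe]
  congr 1
  unfold rp
  exact Finset.prod_coe_sort σ (fun r => r ^ (Nat.card A).factorization r)

/-- **Main theorem**, first part. -/
theorem nonfree_cells {C : ∀ (A : Type) [Group A], Prop} (hC : IsPseudovariety C)
    (ρ : Finset ℕ) (hρ : ∀ r ∈ ρ, r.Prime)
    (hs : ∀ (S : Type) [Group S], C S → IsSimpleGroup S →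
      POnly ρ (Nat.card S) ∨ PCop ρ (Nat.card S))
    (hab : (∀ (S : Type) [Group S], C S → IsSimpleGroup S → POnly ρ (Nat.card S) →
        ∀ a b : S, a * b = b * a) ∨
      (∀ (S : Type) [Group S], C S → IsSimpleGroup S → PCop ρ (Nat.card S) →
        ∀ a b : S, a * b = b * a))
    {p q : ℕ} (hp : p ∈ ρ) (hq : q.Prime) (hqp : q ≠ p)
    (hCp : C (Multiplicative (ZMod p))) (hCq : C (Multiplicative (ZMod q)))
    (n : ℕ) (hn : ρ.card + 2 ≤ n) : NonFreeDecomp C n := by
  classical
  obtain ⟨m, rfl⟩ : ∃ m, n = ρ.card + 2 + m := ⟨n - (ρ.card + 2), by omega⟩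
  have hpp := hρ p hp
  have : Fact p.Prime := ⟨hpp⟩
  have hσ : ∀ r ∈ ρ.erase p, r.Prime := fun r hr => hρ r (Finset.mem_of_mem_erase hr)
  apply nonfree_of hpp hC hq hqp hCp hCq (cndSum (cR (ρ.erase p)) (cnd (PCop ρ) (0 : Fin 2) 1))
    (condOK_sum (condOK_cR hσ) (condOK_cnd (goodPCop ρ) _ _)) m
  intro A _ hA
  have hfA := hC.fin A hA
  rw [card_cndSum, card_cR hσ, card_cnd2, num_pow]
  have h1 := num_cell ρ hρ C hC hs hab (Nat.card A) A hA le_rfl
  have h2 : p ^ (Nat.card A).factorization p * rp (ρ.erase p) (Nat.card A) =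
      rp ρ (Nat.card A) := by
    unfold rp
    exact Finset.mul_prod_erase ρ (fun r => r ^ (Nat.card A).factorization r) hp
  have h3 : (ρ.erase p).card + 1 = ρ.card := Finset.card_erase_add_one hp
  calc Nat.card A * p ^ (Nat.card A).factorization p * Nat.card A ^ m *
        (Nat.card A ^ (ρ.erase p).card * rp (ρ.erase p) (Nat.card A) * num (PCop ρ) A)
      = Nat.card A ^ ((ρ.erase p).card + 1) * Nat.card A ^ m * (num (PCop ρ) A *
        (p ^ (Nat.card A).factorization p * rp (ρ.erase p) (Nat.card A))) := by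
        rw [pow_succ]; ring
    _ = Nat.card A ^ (ρ.card + 2 + m) := by
        rw [h2, h1, h3, ← pow_add, ← pow_add]
        congr 1
        omega

/-- **Main theorem**, second part. -/
theorem nonfree_finite {C : ∀ (A : Type) [Group A], Prop} (hC : IsPseudovariety C)
    (ρ : Finset ℕ) (hρ : ∀ r ∈ ρ, r.Prime)
    (hall : ∀ (A : Type) [Group A], C A → POnly ρ (Nat.card A))
    {p q : ℕ} (hp : p ∈ ρ) (hq : q.Prime) (hqp : q ≠ p)
    (hCp : C (Multiplicative (ZMod p))) (hCq : C (Multiplicative (ZMod q)))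
    (n : ℕ) (hn : ρ.card + 1 ≤ n) : NonFreeDecomp C n := by
  classical
  obtain ⟨m, rfl⟩ : ∃ m, n = ρ.card + 1 + m := ⟨n - (ρ.card + 1), by omega⟩
  have hpp := hρ p hp
  have : Fact p.Prime := ⟨hpp⟩
  have hσ : ∀ r ∈ ρ.erase p, r.Prime := fun r hr => hρ r (Finset.mem_of_mem_erase hr)
  apply nonfree_of hpp hC hq hqp hCp hCq (cR (ρ.erase p)) (condOK_cR hσ) m
  intro A _ hA
  have hfA := hC.fin A hA
  rw [card_cR hσ, num_pow]
  have h1 := rp_only ρ (Nat.card_pos (α := A)).ne' (hall A hA)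
  have h2 : p ^ (Nat.card A).factorization p * rp (ρ.erase p) (Nat.card A) =
      rp ρ (Nat.card A) := by
    unfold rp
    exact Finset.mul_prod_erase ρ (fun r => r ^ (Nat.card A).factorization r) hp
  have h3 : (ρ.erase p).card + 1 = ρ.card := Finset.card_erase_add_one hp
  calc Nat.card A * p ^ (Nat.card A).factorization p * Nat.card A ^ m *
        (Nat.card A ^ (ρ.erase p).card * rp (ρ.erase p) (Nat.card A))
      = Nat.card A ^ ((ρ.erase p).card + 1) * Nat.card A ^ m *
        (p ^ (Nat.card A).factorization p * rp (ρ.erase p) (Nat.card A)) := by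
        rw [pow_succ]; ring
    _ = Nat.card A ^ (ρ.card + 1 + m) := by
        rw [h2, h1, h3, ← pow_add, ← pow_succ]
        congr 1
        omega

end Pool.Agent.H49.WB
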