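import Pool.Agent.H50.PSV.ExtC

set_option autoImplicit false

namespace Pool.Agent.H49.WB

open Subgroup Function Pool.Agent.H50.PSV

/-- A minimal normal subgroup and a simple quotient of it. -/
theorem min_normal (A : Type) [Group A] [Finite A] [Nontrivial A] :
    ∃ N : Subgroup A, N.Normal ∧ N ≠ ⊥ ∧ ∃ M : Subgroup N, ∃ _ : M.Normal,
      IsSimpleGroup (N ⧸ M) ∧
      (∀ r : ℕ, r.Prime → r ∣ Nat.card N → r ∣ Nat.card (N ⧸ M)) ∧
      ((∀ a b : N ⧸ M, a * b = b * a) → ∀ a ∈ N, ∀ b ∈ N, a * b = b * a) := by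
  obtain ⟨N, hN⟩ := (Set.toFinite {N : Subgroup A | N.Normal ∧ N ≠ ⊥}).exists_minimal
    ⟨⊤, inferInstance, top_ne_bot⟩
  have hNn : N.Normal := hN.1.1
  have hNb : N ≠ ⊥ := hN.1.2
  have hNt : Nontrivial N := (Subgroup.nontrivial_iff_ne_bot N).mpr hNb
  obtain ⟨M, hM⟩ := (Set.toFinite {M : Subgroup N | M.Normal ∧ M ≠ ⊤}).exists_maximal
    ⟨⊥, inferInstance, bot_ne_top⟩
  have hMn : M.Normal := hM.1.1
  have hMt : M ≠ ⊤ := hM.1.2
  have hcore : (M.map N.subtype).normalCore = ⊥ := by
    by_contra hcon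
    have h1 : (M.map N.subtype).normalCore ≤ N :=
      (normalCore_le _).trans (map_subtype_le _)
    have h2 := hN.2 (⟨inferInstance, hcon⟩ : (M.map N.subtype).normalCore ∈
      {N : Subgroup A | N.Normal ∧ N ≠ ⊥}) h1
    apply hMt
    rw [eq_top_iff]
    intro x _
    have h3 : (x : A) ∈ M.map N.subtype := normalCore_le _ (h2 x.2)
    obtain ⟨y, hy, hyx⟩ := h3
    have h4 : y = x := Subtype.ext hyx
    rwa [h4] at hy
  have hex : ∀ n : A, n ≠ 1 → ∃ g : A, g * n * g⁻¹ ∉ M.map N.subtype := by
    intro n hn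
    by_contra hcon
    push Not at hcon
    have h1 : n ∈ (M.map N.subtype).normalCore := hcon
    rw [hcore, Subgroup.mem_bot] at h1
    exact hn h1
  have hmem : ∀ x : N, (x : A) ∈ M.map N.subtype ↔ x ∈ M := by
    intro x
    constructor
    · rintro ⟨y, hy, hyx⟩
      have h4 : y = x := Subtype.ext hyx
      rwa [h4] at hy
    · intro hx
      exact ⟨x, hx, rfl⟩
  refine ⟨N, hNn, hNb, M, hMn, ?_, ?_, ?_⟩
  · have hnt : Nontrivial (N ⧸ M) := by
      rw [← not_subsingleton_iff_nontrivial]
      intro hs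
      exact hMt (QuotientGroup.subgroup_eq_top_of_subsingleton M hs)
    refine ⟨?_⟩
    intro H hH
    have h1 : (H.comap (QuotientGroup.mk' M)).Normal := hH.comap _
    by_cases h2 : H.comap (QuotientGroup.mk' M) = ⊤
    · right
      rw [← Subgroup.map_comap_eq_self_of_surjective (QuotientGroup.mk'_surjective M) H, h2,
        Subgroup.map_top_of_surjective _ (QuotientGroup.mk'_surjective M)]
    · left
      have h3 : M ≤ H.comap (QuotientGroup.mk' M) := by
        intro x hx
        rw [Subgroup.mem_comap]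
        have h4 : (QuotientGroup.mk' M) x = 1 := (QuotientGroup.eq_one_iff x).mpr hx
        rw [h4]
        exact H.one_mem
      have h4 := hM.2 (⟨h1, h2⟩ : H.comap (QuotientGroup.mk' M) ∈
        {M : Subgroup N | M.Normal ∧ M ≠ ⊤}) h3
      rw [eq_bot_iff]
      intro y hy
      obtain ⟨x, rfl⟩ := QuotientGroup.mk'_surjective M y
      rw [Subgroup.mem_bot]
      exact (QuotientGroup.eq_one_iff x).mpr (h4 hy)
  · intro r hr hrN
    have : Fact r.Prime := ⟨hr⟩
    obtain ⟨n, hn⟩ := exists_prime_orderOf_dvd_card' r hrN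
    have hn1 : (n : A) ≠ 1 := by
      intro h1
      have h2 : n = 1 := Subtype.ext h1
      rw [h2, orderOf_one] at hn
      exact hr.one_lt.ne hn
    obtain ⟨g, hg⟩ := hex n hn1
    let m : N := ⟨g * n * g⁻¹, hNn.conj_mem _ n.2 g⟩
    have hm : m ∉ M := fun h => hg ((hmem m).mpr h)
    have hmr : m ^ r = 1 := by
      apply Subtype.ext
      change (g * (n : A) * g⁻¹) ^ r = 1
      rw [conj_pow]
      have h3 : (n : A) ^ r = 1 := by
        have h4 : n ^ r = 1 := by rw [← hn]; exact pow_orderOf_eq_one n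
        exact congrArg Subtype.val h4
      rw [h3]
      group
    have h5 : orderOf (QuotientGroup.mk' M m) = r := by
      apply orderOf_eq_prime
      · rw [← map_pow, hmr, map_one]
      · intro h6
        exact hm ((QuotientGroup.eq_one_iff m).mp h6)
    rw [← h5]
    exact orderOf_dvd_natCard _
  · intro hc a ha b hb
    by_contra hab
    have h1 : a * b * a⁻¹ * b⁻¹ ≠ 1 := by
      intro h2
      apply hab
      have h3 : a * b * a⁻¹ = b := mul_inv_eq_one.mp h2
      rw [mul_inv_eq_iff_eq_mul] at h3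
      exact h3
    obtain ⟨g, hg⟩ := hex _ h1
    apply hg
    let a' : N := ⟨g * a * g⁻¹, hNn.conj_mem _ ha g⟩
    let b' : N := ⟨g * b * g⁻¹, hNn.conj_mem _ hb g⟩
    have h2 : a' * b' * a'⁻¹ * b'⁻¹ ∈ M := by
      rw [← QuotientGroup.eq_one_iff]
      change QuotientGroup.mk' M (a' * b' * a'⁻¹ * b'⁻¹) = 1
      rw [map_mul, map_mul, map_mul, map_inv, map_inv,
        hc (QuotientGroup.mk' M a') (QuotientGroup.mk' M b')]
      group
    have h3 : g * (a * b * a⁻¹ * b⁻¹) * g⁻¹ = ((a' * b' * a'⁻¹ * b'⁻¹ : N) : A) := by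
      change g * (a * b * a⁻¹ * b⁻¹) * g⁻¹ =
        g * a * g⁻¹ * (g * b * g⁻¹) * (g * a * g⁻¹)⁻¹ * (g * b * g⁻¹)⁻¹
      group
    rw [h3, hmem]
    exact h2

/-- A group in a pseudovariety all of whose subgroups and quotients have property `Pi` of orders
is solvable if the simple groups with that property are commutative. -/
theorem solvable_of (C : ∀ (A : Type) [Group A], Prop) (hC : IsPseudovariety C) (Pi : ℕ → Prop)
    (hPi : GoodPi Pi)
    (hs : ∀ (S : Type) [Group S], C S → IsSimpleGroup S → Pi (Nat.card S) →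
      ∀ a b : S, a * b = b * a) (n : ℕ) :
    ∀ (A : Type) [Group A], C A → Pi (Nat.card A) → Nat.card A ≤ n → Group.IsSolvable A := by
  induction n with
  | zero =>
    intro A _ hA _ hcard
    have := hC.fin A hA
    have := Nat.card_pos (α := A)
    omega
  | succ n ih =>
    intro A _ hA hPA hcard
    have hfin := hC.fin A hA
    by_cases hss : Subsingleton A
    · infer_instance
    · rw [not_subsingleton_iff_nontrivial] at hss
      obtain ⟨N, hNn, hNb, M, hM, hsimple, _, hcomm⟩ := min_normal A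
      have hCN : C N := hC.sub A N hA
      have hCS : C (N ⧸ M) := hC.image N (N ⧸ M) (QuotientGroup.mk' M)
        (QuotientGroup.mk'_surjective M) hCN
      have hcm := Subgroup.card_eq_card_quotient_mul_card_subgroup N
      have hcm2 := Subgroup.card_eq_card_quotient_mul_card_subgroup M
      have hPN : Pi (Nat.card N) := hPi.dvd _ _ (Dvd.intro_left _ hcm.symm) (Nat.card_pos).ne' hPA
      have hPS : Pi (Nat.card (N ⧸ M)) :=
        hPi.dvd _ _ (Dvd.intro _ hcm2.symm) (Nat.card_pos).ne' hPN
      have hPQ : Pi (Nat.card (A ⧸ N)) :=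
        hPi.dvd _ _ (Dvd.intro _ hcm.symm) (Nat.card_pos).ne' hPA
      have hab := hcomm (hs _ hCS hsimple hPS)
      have hQ : C (A ⧸ N) := hC.image A (A ⧸ N) (QuotientGroup.mk' N)
        (QuotientGroup.mk'_surjective N) hA
      have hfQ := hC.fin _ hQ
      have hN2 : 2 ≤ Nat.card N := by
        have h1 : Nat.card N ≠ 1 := fun h => hNb (Subgroup.card_eq_one.mp h)
        have h2 : 0 < Nat.card N := Nat.card_pos
        omega
      have hQpos : 0 < Nat.card (A ⧸ N) := Nat.card_pos
      have hlt : Nat.card (A ⧸ N) ≤ n := by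
        have : Nat.card (A ⧸ N) < Nat.card A := by rw [hcm]; nlinarith
        omega
      have h1 := ih (A ⧸ N) hQ hPQ hlt
      have h2 : Group.IsSolvable N := by
        letI : CommGroup N := { (inferInstance : Group N) with
          mul_comm := fun a b => Subtype.ext (hab a a.2 b b.2) }
        exact (inferInstance : Group.IsSolvable N)
      exact Group.isSolvable_of_ker_le_range N.subtype (QuotientGroup.mk' N) (by
        rw [QuotientGroup.ker_mk', Subgroup.range_subtype])

end Pool.Agent.H49.WB
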