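import Pool.Agent.H49.WB.Fin
import Pool.Agent.H50.PSV.ExtC

set_option autoImplicit false

namespace Pool.Agent.H49.WB

open Function Pool.Agent.H50.PSV

/-- The class of finite groups whose orders involve only primes in `ρ`. -/
def FinPi (ρ : Finset ℕ) (A : Type) [Group A] : Prop := Finite A ∧ POnly ρ (Nat.card A)

theorem pOnly_dvd {ρ : Finset ℕ} {a b : ℕ} (h : a ∣ b) (hb : POnly ρ b) : POnly ρ a :=
  fun r hr hra => hb r hr (hra.trans h)

theorem pOnly_mul {ρ : Finset ℕ} {a b : ℕ} (ha : POnly ρ a) (hb : POnly ρ b) :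
    POnly ρ (a * b) := by
  intro r hr h
  rcases (hr.dvd_mul).mp h with h1 | h1
  · exact ha r hr h1
  · exact hb r hr h1

theorem pseudovariety_pi (ρ : Finset ℕ) : IsPseudovariety (FinPi ρ) where
  fin := fun _ _ h => h.1
  sub := fun _ _ B h => ⟨by have := h.1; infer_instance,
    pOnly_dvd (Subgroup.card_subgroup_dvd_card B) h.2⟩
  image := fun A B _ _ f hf h => by
    have := h.1
    exact ⟨Finite.of_surjective f hf, pOnly_dvd (Subgroup.card_dvd_of_surjective f hf) h.2⟩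
  prod := fun _ _ _ _ h h' => by
    have := h.1
    have := h'.1
    exact ⟨inferInstance, by rw [Nat.card_prod]; exact pOnly_mul h.2 h'.2⟩

theorem extClosed_pi (ρ : Finset ℕ) : IsExtClosed (FinPi ρ) := by
  intro A _ N _ hN hQ
  have h1 := hN.1
  have h2 := hQ.1
  have h3 : Finite A := by
    have h4 : N.FiniteIndex := Subgroup.finiteIndex_of_finite_quotient
    apply Nat.finite_of_card_ne_zero
    rw [← Subgroup.card_mul_index N]
    exact Nat.mul_ne_zero (Nat.card_pos).ne' h4.index_ne_zero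
  exact ⟨h3, by
    rw [Subgroup.card_eq_card_quotient_mul_card_subgroup N]
    exact pOnly_mul hQ.2 hN.2⟩

theorem zmod_pi {ρ : Finset ℕ} {p : ℕ} (hp : p.Prime) (hpρ : p ∈ ρ) :
    FinPi ρ (Multiplicative (ZMod p)) := by
  have : NeZero p := ⟨hp.ne_zero⟩
  refine ⟨inferInstance, ?_⟩
  rw [card_mulZMod]
  intro r hr h
  rw [(Nat.prime_dvd_prime_iff_eq hr hp).mp h]
  exact hpρ

/-- Pro-`ρ` groups for a finite set `ρ` of at least two primes. -/
theorem nonfree_pi (ρ : Finset ℕ) (hρ : ∀ r ∈ ρ, r.Prime) (h2 : 2 ≤ ρ.card) (n : ℕ)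
    (hn : ρ.card + 1 ≤ n) : NonFreeDecomp (FinPi ρ) n := by
  obtain ⟨p, q, hp, hq, hpq⟩ := Finset.one_lt_card_iff.mp h2
  exact nonfree_finite (pseudovariety_pi ρ) ρ hρ (fun A _ h => h.2) hp (hρ q hq) hpq.symm
    (zmod_pi (hρ p hp) hp) (zmod_pi (hρ q hq) hq) n hn

end Pool.Agent.H49.WB
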