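import Mathlib

set_option autoImplicit false

namespace Pool.Agent.H49.WB

open Finset
open scoped Classical

variable {α : Type} [PartialOrder α]

/-- Weights adding up to one on the upper parts of a finite family. -/
theorem exists_up (S : Finset α) : ∃ a : α → ℤ, ∀ u ∈ S, ∑ q ∈ S with u ≤ q, a q = 1 := by
  induction S using Finset.strongInduction with
  | H S ih =>
    by_cases hS : S.Nonempty
    · obtain ⟨m, hm⟩ := S.exists_minimal hS
      obtain ⟨a, ha⟩ := ih (S.erase m) (Finset.erase_ssubset hm.1)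
      refine ⟨fun q => if q = m then 1 - ∑ q ∈ S.erase m with m ≤ q, a q else a q, ?_⟩
      intro u hu
      by_cases hum : u = m
      · subst hum
        have h1 : (S.filter (fun q => u ≤ q)) = insert u ((S.erase u).filter (fun q => u ≤ q)) := by
          ext q
          simp only [Finset.mem_filter, Finset.mem_insert, Finset.mem_erase]
          constructor
          · rintro ⟨h1, h2⟩
            by_cases h3 : q = u
            · exact Or.inl h3
            · exact Or.inr ⟨⟨h3, h1⟩, h2⟩
          · rintro (h1 | ⟨⟨_, h2⟩, h3⟩)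
            · subst h1; exact ⟨hu, le_rfl⟩
            · exact ⟨h2, h3⟩
        rw [h1, Finset.sum_insert (by simp)]
        rw [if_pos rfl]
        have h2 : ∑ q ∈ (S.erase u) with u ≤ q, (if q = u then
            1 - ∑ q ∈ S.erase u with u ≤ q, a q else a q) = ∑ q ∈ (S.erase u) with u ≤ q, a q := by
          apply Finset.sum_congr rfl
          intro q hq
          rw [if_neg]
          exact (Finset.mem_erase.mp (Finset.mem_filter.mp hq).1).1
        rw [h2]
        ring
      · have h1 : (S.filter (fun q => u ≤ q)) = ((S.erase m).filter (fun q => u ≤ q)) := by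
          ext q
          simp only [Finset.mem_filter, Finset.mem_erase]
          constructor
          · rintro ⟨h1, h2⟩
            refine ⟨⟨?_, h1⟩, h2⟩
            intro h3
            subst h3
            exact hum (le_antisymm h2 (hm.2 hu h2))
          · rintro ⟨⟨_, h2⟩, h3⟩
            exact ⟨h2, h3⟩
        rw [h1]
        refine Eq.trans ?_ (ha u (Finset.mem_erase.mpr ⟨hum, hu⟩))
        apply Finset.sum_congr rfl
        intro q hq
        beta_reduce
        rw [if_neg]
        exact (Finset.mem_erase.mp (Finset.mem_filter.mp hq).1).1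
    · rw [Finset.not_nonempty_iff_eq_empty] at hS
      subst hS
      exact ⟨fun _ => 0, by simp⟩

/-- Weights adding up to one on the lower parts of a finite family. -/
theorem exists_dn (S : Finset α) : ∃ a : α → ℤ, ∀ u ∈ S, ∑ q ∈ S with q ≤ u, a q = 1 := by
  obtain ⟨a, ha⟩ := exists_up (α := αᵒᵈ) (S.map (OrderDual.toDual (α := α)).toEmbedding)
  refine ⟨fun q => a (OrderDual.toDual q), ?_⟩
  intro u hu
  have h := ha (OrderDual.toDual u) (by simpa using hu)
  rw [← h, Finset.filter_map, Finset.sum_map]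
  apply Finset.sum_congr
  · ext q
    simp
  · intro q _
    rfl

/-- The weight of a family. -/
noncomputable def wt (S : Finset α) : α → ℤ := (exists_up S).choose

theorem wt_spec (S : Finset α) (u : α) (hu : u ∈ S) : ∑ q ∈ S with u ≤ q, wt S q = 1 :=
  (exists_up S).choose_spec u hu

/-- The Euler characteristic of a family. -/
noncomputable def chi (S : Finset α) : ℤ := ∑ q ∈ S, wt S q

theorem chi_empty : chi (∅ : Finset α) = 0 := by
  unfold chi; simp

/-- Comparison of an upper weight on a family with a lower weight on a retract. -/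
theorem retract_aux (S S0 : Finset α) (hS : S0 ⊆ S) (r : α → α)
    (hr : ∀ q ∈ S, r q ∈ S0 ∧ r q ≤ q ∧ ∀ u ∈ S0, u ≤ q → u ≤ r q)
    (a k : α → ℤ) (ha : ∀ u ∈ S, ∑ q ∈ S with u ≤ q, a q = 1)
    (hk : ∀ u ∈ S0, ∑ q ∈ S0 with q ≤ u, k q = 1) :
    ∑ q ∈ S, a q = ∑ u ∈ S0, k u := by
  have h1 : ∀ q ∈ S, ∑ u ∈ S0 with u ≤ q, k u = 1 := by
    intro q hq
    obtain ⟨h1, h2, h3⟩ := hr q hq
    rw [← hk (r q) h1]
    apply Finset.sum_congr _ (fun _ _ => rfl)
    ext u
    simp only [Finset.mem_filter]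
    exact ⟨fun h => ⟨h.1, h3 u h.1 h.2⟩, fun h => ⟨h.1, h.2.trans h2⟩⟩
  calc ∑ q ∈ S, a q = ∑ q ∈ S, a q * ∑ u ∈ S0 with u ≤ q, k u := by
        apply Finset.sum_congr rfl
        intro q hq
        rw [h1 q hq, mul_one]
    _ = ∑ q ∈ S, ∑ u ∈ S0, if u ≤ q then a q * k u else 0 := by
        apply Finset.sum_congr rfl
        intro q _
        rw [Finset.mul_sum, Finset.sum_filter]
    _ = ∑ u ∈ S0, ∑ q ∈ S, if u ≤ q then a q * k u else 0 := Finset.sum_comm
    _ = ∑ u ∈ S0, k u * ∑ q ∈ S with u ≤ q, a q := by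
        apply Finset.sum_congr rfl
        intro u _
        rw [Finset.mul_sum, Finset.sum_filter]
        apply Finset.sum_congr rfl
        intro q _
        split_ifs
        · ring
        · rfl
    _ = ∑ u ∈ S0, k u := by
        apply Finset.sum_congr rfl
        intro u hu
        rw [ha u (hS hu), mul_one]

/-- The total weight does not depend on the weight. -/
theorem sum_eq_chi (S : Finset α) (a : α → ℤ) (ha : ∀ u ∈ S, ∑ q ∈ S with u ≤ q, a q = 1) :
    ∑ q ∈ S, a q = chi S := by
  obtain ⟨k, hk⟩ := exists_dn S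
  have hr : ∀ q ∈ S, id q ∈ S ∧ id q ≤ q ∧ ∀ u ∈ S, u ≤ q → u ≤ id q :=
    fun q hq => ⟨hq, le_rfl, fun u _ h => h⟩
  rw [retract_aux S S (Finset.Subset.refl S) id hr a k ha hk]
  exact (retract_aux S S (Finset.Subset.refl S) id hr (wt S) k (wt_spec S) hk).symm

/-- Retraction. -/
theorem chi_retract (S S0 : Finset α) (hS : S0 ⊆ S) (r : α → α)
    (hr : ∀ q ∈ S, r q ∈ S0 ∧ r q ≤ q ∧ ∀ u ∈ S0, u ≤ q → u ≤ r q) :
    chi S = chi S0 := by
  obtain ⟨k, hk⟩ := exists_dn S0
  have h1 := retract_aux S S0 hS r hr (wt S) k (wt_spec S) hk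
  have hr' : ∀ q ∈ S0, id q ∈ S0 ∧ id q ≤ q ∧ ∀ u ∈ S0, u ≤ q → u ≤ id q :=
    fun q hq => ⟨hq, le_rfl, fun u _ h => h⟩
  have h2 := retract_aux S0 S0 (Finset.Subset.refl S0) id hr' (wt S0) k (wt_spec S0) hk
  unfold chi
  rw [h1, h2]

/-- A family with a least element. -/
theorem chi_least (S : Finset α) (m : α) (hm : m ∈ S) (h : ∀ q ∈ S, m ≤ q) : chi S = 1 := by
  rw [← wt_spec S m hm]
  unfold chi
  apply Finset.sum_congr _ (fun _ _ => rfl)
  ext q
  simp only [Finset.mem_filter]
  exact ⟨fun hq => ⟨hq, h q hq⟩, fun hq => hq.1⟩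

theorem wt_eq (S : Finset α) (u : α) (hu : u ∈ S) :
    wt S u = 1 - chi (S.filter (fun q => u < q)) := by
  have h1 := wt_spec S u hu
  have h2 : (S.filter (fun q => u ≤ q)) = insert u (S.filter (fun q => u < q)) := by
    ext q
    simp only [Finset.mem_filter, Finset.mem_insert]
    constructor
    · rintro ⟨h1, h2⟩
      rcases h2.eq_or_lt with h3 | h3
      · exact Or.inl h3.symm
      · exact Or.inr ⟨h1, h3⟩
    · rintro (h1 | ⟨h1, h2⟩)
      · subst h1; exact ⟨hu, le_rfl⟩
      · exact ⟨h1, h2.le⟩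
  rw [h2, Finset.sum_insert (by simp)] at h1
  have h3 : ∑ q ∈ S with u < q, wt S q = chi (S.filter (fun q => u < q)) := by
    apply sum_eq_chi
    intro v hv
    rw [Finset.mem_filter] at hv
    rw [← wt_spec S v hv.1, Finset.filter_filter]
    apply Finset.sum_congr _ (fun _ _ => rfl)
    ext q
    simp only [Finset.mem_filter]
    exact ⟨fun h => ⟨h.1, h.2.2⟩, fun h => ⟨h.1, hv.2.trans_le h.2, h.2⟩⟩
  rw [h3] at h1
  linarith

/-- The recursion. -/
theorem chi_rec (S : Finset α) :
    chi S = ∑ u ∈ S, (1 - chi (S.filter (fun q => u < q))) := by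
  unfold chi
  apply Finset.sum_congr rfl
  intro u hu
  rw [wt_eq S u hu]
  rfl

end Pool.Agent.H49.WB
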