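import Pool.Agent.H49.WB.Min

set_option autoImplicit false

namespace Pool.Agent.H49.WB

open Subgroup Function Pool.Agent.H50.PSV

/-- Complements of a normal subgroup. -/
def Cm {B : Type} [Group B] (N K : Subgroup B) : Prop :=
  (∀ x ∈ N, x ∈ K → x = 1) ∧ ∀ b : B, ∃ n ∈ N, ∃ k ∈ K, b = n * k

theorem cm_of {B : Type} [Group B] {N K : Subgroup B} (h : IsComplement' N K) : Cm N K := by
  constructor
  · intro x hx hk
    have h1 : x ∈ N ⊓ K := ⟨hx, hk⟩
    rw [h.disjoint.eq_bot, Subgroup.mem_bot] at h1
    exact h1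
  · intro b
    obtain ⟨⟨n, k⟩, hnk⟩ := h.2 b
    exact ⟨n.1, n.2, k.1, k.2, hnk.symm⟩

theorem Cm.compl {B : Type} [Group B] {N K : Subgroup B} (h : Cm N K) : IsComplement' N K := by
  apply isComplement'_of_disjoint_and_mul_eq_univ
  · rw [disjoint_iff, eq_bot_iff]
    rintro x ⟨h1, h2⟩
    rw [Subgroup.mem_bot]
    exact h.1 x h1 h2
  · rw [Set.eq_univ_iff_forall]
    intro b
    obtain ⟨n, hn, k, hk, rfl⟩ := h.2 b
    exact Set.mul_mem_mul hn hk

theorem Cm.card_eq {B : Type} [Group B] [Finite B] {N K : Subgroup B} (h : Cm N K) :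
    Nat.card K = N.index := by
  have h1 := h.compl.card_mul_card
  rw [← N.card_mul_index] at h1
  exact Nat.eq_of_mul_eq_mul_left Nat.card_pos h1

theorem Cm.cj {B : Type} [Group B] {N K : Subgroup B} [N.Normal] (h : Cm N K) (g : B) :
    Cm N (cj g K) := by
  constructor
  · intro x hx hk
    rw [mem_cj] at hk
    have h1 : g⁻¹ * x * g ∈ N := by
      have h2 := (inferInstance : N.Normal).conj_mem x hx g⁻¹
      rwa [inv_inv] at h2
    have h2 := h.1 _ h1 hk
    have e : x = g * (g⁻¹ * x * g) * g⁻¹ := by group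
    rw [e, h2]
    group
  · intro b
    obtain ⟨n, hn, k, hk, hb⟩ := h.2 (g⁻¹ * b * g)
    refine ⟨g * n * g⁻¹, (inferInstance : N.Normal).conj_mem n hn g, g * k * g⁻¹, ?_, ?_⟩
    · rw [mem_cj]
      have e : g⁻¹ * (g * k * g⁻¹) * g = k := by group
      rw [e]; exact hk
    · have e : b = g * (g⁻¹ * b * g) * g⁻¹ := by group
      rw [e, hb]
      group

/-- A group all of whose prime divisors are equal to `r`. -/
theorem pgroup_of_unique {B : Type} [Group B] [Finite B] {r : ℕ} (hr : r.Prime)
    (h : ∀ q : ℕ, q.Prime → q ∣ Nat.card B → q = r) : ∃ m : ℕ, Nat.card B = r ^ m :=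
  ⟨_, Nat.eq_prime_pow_of_unique_prime_dvd (Nat.card_pos).ne' (fun {q} hq hqd => h q hq hqd)⟩

/-- **Conjugacy of complements**, solvable quotient. -/
theorem conj_solv (n : ℕ) : ∀ (B : Type) [Group B] [Finite B] (N : Subgroup B) [N.Normal],
    Nat.card B ≤ n → Nat.Coprime (Nat.card N) N.index → Group.IsSolvable (B ⧸ N) →
    ∀ K1 K2 : Subgroup B, Cm N K1 → Cm N K2 → ∃ g ∈ N, K2 = cj g K1 := by
  induction n with
  | zero =>
    intro B _ _ N _ hB
    have : 0 < Nat.card B := Nat.card_pos
    omega
  | succ n ih =>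
    intro B _ _ N _ hB hcop hsol K1 K2 h1 h2
    by_cases hss : Subsingleton (B ⧸ N)
    · have hN : N = ⊤ := QuotientGroup.subgroup_eq_top_of_subsingleton N hss
      have hK : ∀ K : Subgroup B, Cm N K → K = ⊥ := by
        intro K hK
        rw [eq_bot_iff]
        intro x hx
        rw [Subgroup.mem_bot]
        exact hK.1 x (by rw [hN]; trivial) hx
      exact ⟨1, N.one_mem, by rw [hK K1 h1, hK K2 h2, cj_one]⟩
    · rw [not_subsingleton_iff_nontrivial] at hss
      obtain ⟨Rb, hRn, hRb, M, hM, hsimple, hdiv, _⟩ := min_normal (B ⧸ N)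
      have hsolM : Group.IsSolvable (Rb ⧸ M) := inferInstance
      have hcM := IsSimpleGroup.comm_iff_isSolvable.mpr hsolM
      obtain ⟨r, hr, hrc⟩ : ∃ r : ℕ, r.Prime ∧ Nat.card (Rb ⧸ M) = r := by
        let _ : CommGroup (Rb ⧸ M) := { (inferInstance : Group (Rb ⧸ M)) with mul_comm := hcM }
        exact ⟨_, IsSimpleGroup.prime_card, rfl⟩
      have hfr : Fact r.Prime := ⟨hr⟩
      have hRp : ∃ m : ℕ, Nat.card Rb = r ^ m := by
        apply pgroup_of_unique hr
        intro q hq hqd
        have h3 := hdiv q hq hqd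
        rw [hrc] at h3
        exact (Nat.prime_dvd_prime_iff_eq hq hr).mp h3
      have hrR : r ∣ Nat.card Rb := by
        have h3 := Subgroup.card_eq_card_quotient_mul_card_subgroup M
        rw [hrc] at h3
        exact Dvd.intro _ h3.symm
      have hrB : r ∣ N.index := hrR.trans (Subgroup.card_subgroup_dvd_card Rb)
      have hrN : Nat.Coprime r (Nat.card N) := (Nat.Coprime.coprime_dvd_right hrB hcop).symm
      let π : B →* B ⧸ N := QuotientGroup.mk' N
      have hπ : Surjective π := QuotientGroup.mk'_surjective N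
      have hker : π.ker = N := QuotientGroup.ker_mk' N
      let R : Subgroup B := Rb.comap π
      have hRnB : R.Normal := hRn.comap π
      have hNR : N ≤ R := by
        intro x hx
        change π x ∈ Rb
        have h3 : π x = 1 := by rw [← MonoidHom.mem_ker, hker]; exact hx
        rw [h3]; exact Rb.one_mem
      have hNRn : (N.subgroupOf R).Normal := inferInstance
      have hcR : Nat.card (N.subgroupOf R) = Nat.card N :=
        Nat.card_congr (subgroupOfEquivOfLe hNR).toEquiv
      have hiR : ∃ m : ℕ, (N.subgroupOf R).index = r ^ m := by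
        have h3 := index_subgroupOf_ker π hπ Rb
        rw [hker] at h3
        obtain ⟨m, hm⟩ := hRp
        exact ⟨m, by rw [← hm]; exact h3⟩
      have hsy := (compl_sylow r (N.subgroupOf R) (by rw [hcR]; exact hrN) hiR).2
      have hCR : ∀ K : Subgroup B, Cm N K → IsComplement' (N.subgroupOf R) (K.subgroupOf R) := by
        intro K hK
        apply Cm.compl
        constructor
        · intro x hx hk
          exact Subtype.ext (hK.1 _ hx hk)
        · intro b
          obtain ⟨m, hm, k, hk, hb⟩ := hK.2 b.1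
          have hkR : k ∈ R := by
            have e : k = m⁻¹ * b.1 := by rw [hb]; group
            rw [e]
            exact R.mul_mem (R.inv_mem (hNR hm)) b.2
          exact ⟨⟨m, hNR hm⟩, hm, ⟨k, hkR⟩, hk, Subtype.ext hb⟩
      obtain ⟨g0, hg0, hg⟩ := hsy _ _ (hCR K1 h1) (hCR K2 h2)
      have hg0N : (g0 : B) ∈ N := hg0
      let K3 : Subgroup B := cj (g0 : B) K1
      have h3 : Cm N K3 := h1.cj _
      have hT : ∀ x ∈ R, x ∈ K2 ↔ x ∈ K3 := by
        intro x hx
        have h4 : (⟨x, hx⟩ : R) ∈ K2.subgroupOf R ↔ (⟨x, hx⟩ : R) ∈ cj g0 (K1.subgroupOf R) := by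
          rw [hg]
        rw [mem_cj] at h4
        change x ∈ K2 ↔ x ∈ cj (g0 : B) K1
        rw [mem_cj]
        exact h4
      let T : Subgroup B := K2 ⊓ R
      have hTb : T ≠ ⊥ := by
        intro hcon
        apply hRb
        rw [eq_bot_iff]
        intro y hy
        obtain ⟨b, rfl⟩ := hπ y
        obtain ⟨m, hm, k, hk, rfl⟩ := h2.2 b
        have hmR : m ∈ R := hNR hm
        have hkR : k ∈ R := by
          have e : k = m⁻¹ * (m * k) := by group
          rw [e]
          exact R.mul_mem (R.inv_mem hmR) hy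
        have hkT : k ∈ T := ⟨hk, hkR⟩
        rw [hcon, Subgroup.mem_bot] at hkT
        rw [hkT, mul_one, Subgroup.mem_bot, ← MonoidHom.mem_ker, hker]
        exact hm
      let D : Subgroup B := normalizer (T : Set B)
      have hK2D : K2 ≤ D := by
        intro k hk
        change k ∈ normalizer (T : Set B)
        rw [Subgroup.mem_normalizer_iff'']
        intro x
        constructor
        · rintro ⟨ha, hb⟩
          refine ⟨K2.mul_mem (K2.mul_mem (K2.inv_mem hk) ha) hk, ?_⟩
          have h5 := hRnB.conj_mem x hb k⁻¹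
          rwa [inv_inv] at h5
        · rintro ⟨ha, hb⟩
          have e : x = k * (k⁻¹ * x * k) * k⁻¹ := by group
          rw [e]
          exact ⟨K2.mul_mem (K2.mul_mem hk ha) (K2.inv_mem hk), hRnB.conj_mem _ hb k⟩
      have hTK3 : ∀ x, x ∈ T ↔ x ∈ K3 ∧ x ∈ R := by
        intro x
        constructor
        · rintro ⟨ha, hb⟩
          exact ⟨(hT x hb).mp ha, hb⟩
        · rintro ⟨ha, hb⟩
          exact ⟨(hT x hb).mpr ha, hb⟩
      have hK3D : K3 ≤ D := by
        intro k hk
        change k ∈ normalizer (T : Set B)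
        rw [Subgroup.mem_normalizer_iff'']
        intro x
        change x ∈ T ↔ k⁻¹ * x * k ∈ T
        rw [hTK3, hTK3]
        constructor
        · rintro ⟨ha, hb⟩
          refine ⟨K3.mul_mem (K3.mul_mem (K3.inv_mem hk) ha) hk, ?_⟩
          have h5 := hRnB.conj_mem x hb k⁻¹
          rwa [inv_inv] at h5
        · rintro ⟨ha, hb⟩
          have e : x = k * (k⁻¹ * x * k) * k⁻¹ := by group
          rw [e]
          exact ⟨K3.mul_mem (K3.mul_mem hk ha) (K3.inv_mem hk), hRnB.conj_mem _ hb k⟩
      have hTn : (T.subgroupOf D).Normal := normal_in_normalizer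
      let E : Type := D ⧸ T.subgroupOf D
      let q : D →* E := QuotientGroup.mk' (T.subgroupOf D)
      have hq : Surjective q := QuotientGroup.mk'_surjective _
      have hqe : ∀ a b : D, q a = q b → ∃ t ∈ T, (b : B) = a * t := by
        intro a b hab
        have h5 : a⁻¹ * b ∈ T.subgroupOf D := QuotientGroup.eq.mp hab
        exact ⟨(a : B)⁻¹ * b, h5, by group⟩
      let NE : Subgroup E := (N.subgroupOf D).map q
      have hNEn : NE.Normal := Subgroup.Normal.map inferInstance q hq
      have hCE : ∀ K : Subgroup B, Cm N K → K ≤ D → T ≤ K → Cm NE ((K.subgroupOf D).map q) := by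
        intro K hK hKD hTK
        constructor
        · rintro y ⟨m, hm, rfl⟩ ⟨k, hk, hkm⟩
          obtain ⟨t, ht, htm⟩ := hqe _ _ hkm
          have h5 : (m : B) ∈ K := by rw [htm]; exact K.mul_mem hk (hTK ht)
          have h6 : m = 1 := Subtype.ext (hK.1 _ hm h5)
          rw [h6, map_one]
        · intro y
          obtain ⟨d, rfl⟩ := hq y
          obtain ⟨m, hm, k, hk, hd⟩ := hK.2 d.1
          have hkD : k ∈ D := hKD hk
          have hmD : m ∈ D := by
            have e : m = d.1 * k⁻¹ := by rw [hd]; group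
            rw [e]
            exact D.mul_mem d.2 (D.inv_mem hkD)
          refine ⟨q ⟨m, hmD⟩, ⟨_, hm, rfl⟩, q ⟨k, hkD⟩, ⟨_, hk, rfl⟩, ?_⟩
          rw [← map_mul]
          congr 1
          exact Subtype.ext hd
      have hTK2 : T ≤ K2 := inf_le_left
      have hTK3' : T ≤ K3 := fun x hx => ((hTK3 x).mp hx).1
      have hcE3 := hCE K3 h3 hK3D hTK3'
      have hcE2 := hCE K2 h2 hK2D hTK2
      have hEcard : Nat.card E ≤ n := by
        have h5 : Nat.card D = Nat.card E * Nat.card (T.subgroupOf D) :=
          Subgroup.card_eq_card_quotient_mul_card_subgroup (T.subgroupOf D)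
        have hTD : T ≤ D := le_normalizer
        have h6 : Nat.card (T.subgroupOf D) = Nat.card T :=
          Nat.card_congr (subgroupOfEquivOfLe hTD).toEquiv
        have h7 : 2 ≤ Nat.card T := by
          have h8 : Nat.card T ≠ 1 := fun h => hTb (Subgroup.card_eq_one.mp h)
          have h9 : 0 < Nat.card T := Nat.card_pos
          omega
        have h8 : Nat.card D ≤ Nat.card B :=
          Nat.card_le_card_of_injective D.subtype D.subtype_injective
        have h9 : 0 < Nat.card E := Nat.card_pos
        rw [h6] at h5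
        have : Nat.card E < Nat.card D := by rw [h5]; nlinarith
        omega
      have hcopE : Nat.Coprime (Nat.card NE) NE.index := by
        rw [← hcE2.card_eq]
        have h5 : Nat.card NE ∣ Nat.card N :=
          (Subgroup.card_map_dvd _ _).trans (by
            have h6 : Nat.card (N.subgroupOf D) = Nat.card ((N.subgroupOf D).map D.subtype) :=
              (Subgroup.card_map_of_injective D.subtype_injective).symm
            rw [h6, Subgroup.subgroupOf_map_subtype]
            exact Subgroup.card_dvd_of_le inf_le_left)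
        have h6 : Nat.card ((K2.subgroupOf D).map q) ∣ N.index := by
          rw [← h2.card_eq]
          refine (Subgroup.card_map_dvd _ _).trans ?_
          rw [Nat.card_congr (subgroupOfEquivOfLe hK2D).toEquiv]
        exact Nat.Coprime.coprime_dvd_left h5 (Nat.Coprime.coprime_dvd_right h6 hcop)
      have hsolE : Group.IsSolvable (E ⧸ NE) := by
        have h5 : Group.IsSolvable K2 := by
          apply Group.isSolvable_of_isSolvable_injective (f := π.comp K2.subtype)
          rw [injective_iff_map_eq_one]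
          intro k hk
          apply Subtype.ext
          apply h2.1 _ _ k.2
          rw [← hker]
          exact hk
        let f : K2 →* E ⧸ NE := (QuotientGroup.mk' NE).comp (q.comp (Subgroup.inclusion hK2D))
        apply Group.isSolvable_of_surjective (f := f)
        intro y
        obtain ⟨e, rfl⟩ := QuotientGroup.mk'_surjective NE y
        obtain ⟨m, hm, k, ⟨k', hk', rfl⟩, rfl⟩ := hcE2.2 e
        refine ⟨⟨k'.1, hk'⟩, ?_⟩
        change QuotientGroup.mk' NE (q k') = _
        rw [map_mul]
        have h6 : QuotientGroup.mk' NE m = 1 := (QuotientGroup.eq_one_iff m).mpr hm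
        rw [h6, one_mul]
      obtain ⟨e, ⟨d, hd, rfl⟩, hde⟩ := ih E NE hEcard hcopE hsolE _ _ hcE3 hcE2
      have hdN : (d : B) ∈ N := hd
      refine ⟨d * g0, N.mul_mem hdN hg0N, ?_⟩
      rw [cj_mul]
      apply Subgroup.eq_of_le_of_card_ge
      · intro x hx
        have hxD := hK2D hx
        have h5 : q ⟨x, hxD⟩ ∈ (K2.subgroupOf D).map q := ⟨_, hx, rfl⟩
        rw [hde, mem_cj, ← map_inv, ← map_mul, ← map_mul] at h5
        obtain ⟨k, hk, hkq⟩ := h5
        obtain ⟨t, ht, htm⟩ := hqe _ _ hkq
        rw [mem_cj]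
        change (d : B)⁻¹ * x * d ∈ K3
        have h6 : (d : B)⁻¹ * x * d = k * t := htm
        rw [h6]
        exact K3.mul_mem hk (hTK3' ht)
      · change Nat.card (cj (d : B) K3) ≤ Nat.card K2
        rw [card_cj, h3.card_eq, h2.card_eq]

end Pool.Agent.H49.WB
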