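import Pool.Agent.H49.WB.Pos

set_option autoImplicit false

namespace Pool.Agent.H49.WB

open Subgroup
open scoped Classical

variable {A : Type} [Group A]

section
variable [Finite A] {p : ℕ} [hp : Fact p.Prime]

/-- Normalisers grow in `p`-groups. -/
theorem grow {Q R : Subgroup A} (hR : IsPGroup p R) (h : Q < R) :
    Q < R ⊓ normalizer (Q : Set A) := by
  have hnil : Group.IsNilpotent R := hR.isNilpotent
  have hnc := Group.normalizerCondition_of_isNilpotent (G := R)
  have h1 : Q.subgroupOf R < ⊤ := by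
    rw [lt_top_iff_ne_top]
    intro h2
    rw [Subgroup.subgroupOf_eq_top] at h2
    exact absurd (le_antisymm h.le h2) h.ne
  have h2 := hnc _ h1
  rw [← subgroupOf_normalizer_eq h.le] at h2
  refine lt_of_le_of_ne (le_inf h.le le_normalizer) ?_
  intro h3
  apply h2.ne
  ext x
  rw [Subgroup.mem_subgroupOf, Subgroup.mem_subgroupOf]
  constructor
  · intro hx
    exact le_normalizer hx
  · intro hx
    have h4 : (x : A) ∈ R ⊓ normalizer (Q : Set A) := ⟨x.2, hx⟩
    rwa [← h3] at h4

/-- `Q` is a Sylow subgroup of `G`. -/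
def IsSyl (p : ℕ) (G Q : Subgroup A) : Prop :=
  Q ≤ G ∧ Nat.card Q = p ^ (Nat.card G).factorization p

omit [Finite A] in
theorem card_sub {G Q : Subgroup A} (h : Q ≤ G) : Nat.card (Q.subgroupOf G) = Nat.card Q :=
  Nat.card_congr (subgroupOfEquivOfLe h).toEquiv

theorem pgroup_card_le {G Q : Subgroup A} (hQ : IsPGroup p Q) (h : Q ≤ G) :
    Nat.card Q ≤ p ^ (Nat.card G).factorization p := by
  obtain ⟨n, hn⟩ := IsPGroup.iff_card.mp hQ
  have h1 : p ^ n ∣ Nat.card G := by rw [← hn]; exact Subgroup.card_dvd_of_le h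
  rw [hn]
  apply Nat.pow_le_pow_right hp.out.pos
  exact (hp.out.pow_dvd_iff_le_factorization (Nat.card_pos).ne').mp h1

/-- A `p`-subgroup lies in a Sylow subgroup. -/
theorem exists_syl {G Q : Subgroup A} (hQ : IsPGroup p Q) (h : Q ≤ G) :
    ∃ R : Subgroup A, IsPGroup p R ∧ IsSyl p G R ∧ Q ≤ R := by
  have h1 : IsPGroup p (Q.subgroupOf G) :=
    hQ.of_equiv (subgroupOfEquivOfLe h).symm
  obtain ⟨P, hP⟩ := h1.exists_le_sylow
  refine ⟨(P : Subgroup G).map G.subtype, P.isPGroup'.map _, ⟨?_, ?_⟩, ?_⟩
  · exact Subgroup.map_subtype_le _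
  · rw [Subgroup.card_map_of_injective G.subtype_injective]
    exact P.card_eq_multiplicity
  · have h2 := Subgroup.map_mono (f := G.subtype) hP
    rwa [Subgroup.subgroupOf_map_subtype, inf_eq_left.mpr h] at h2

omit [Finite A] hp in
theorem IsSyl.isPGroup {G Q : Subgroup A} (h : IsSyl p G Q) : IsPGroup p Q :=
  IsPGroup.of_card h.2

/-- A Sylow subgroup of `G` gives one of the normaliser. -/
theorem syl_normalizer {G Q : Subgroup A} (hQ : IsPGroup p Q) (hQG : Q ≤ G) :
    IsSyl p (G ⊓ normalizer (Q : Set A)) Q ↔ IsSyl p G Q := by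
  constructor
  · intro h
    obtain ⟨R, hR, hRS, hQR⟩ := exists_syl hQ hQG
    rcases hQR.eq_or_lt with h1 | h1
    · rw [h1]; exact hRS
    · exfalso
      have h2 := grow hR h1
      have h3 : IsPGroup p (R ⊓ normalizer (Q : Set A) : Subgroup A) := hR.to_le inf_le_left
      have h4 : R ⊓ normalizer (Q : Set A) ≤ G ⊓ normalizer (Q : Set A) :=
        inf_le_inf_right _ hRS.1
      have h5 := pgroup_card_le h3 h4
      rw [← h.2] at h5
      have h6 := Subgroup.eq_of_le_of_card_ge h2.le h5
      exact h2.ne h6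
  · intro h
    refine ⟨le_inf hQG le_normalizer, ?_⟩
    apply le_antisymm
    · exact pgroup_card_le hQ (le_inf hQG le_normalizer)
    · rw [h.2]
      apply Nat.pow_le_pow_right hp.out.pos
      apply (Nat.factorization_le_iff_dvd (Nat.card_pos).ne' (Nat.card_pos).ne').mpr
      exact Subgroup.card_dvd_of_le inf_le_left

/-- A normal `p`-subgroup lies in every Sylow subgroup. -/
theorem le_syl_of_normal {G Q R : Subgroup A} (hQ : IsPGroup p Q) (hQG : Q ≤ G)
    (hn : G ≤ normalizer (Q : Set A)) (hR : IsSyl p G R) : Q ≤ R := by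
  have hRp := hR.isPGroup
  have h1 : IsPGroup p (Q ⊔ R : Subgroup A) :=
    IsPGroup.to_sup_of_normal_left' hQ hRp (hR.1.trans hn)
  have h2 := pgroup_card_le h1 (sup_le hQG hR.1)
  rw [← hR.2] at h2
  have h3 := Subgroup.eq_of_le_of_card_ge (le_sup_right : R ≤ Q ⊔ R) h2
  rw [h3]
  exact le_sup_left

/-- The Sylow subgroups of `G`, as a finite set. -/
noncomputable def SylSet (p : ℕ) (G : Subgroup A) : Finset (Subgroup A) :=
  (Set.toFinite {Q : Subgroup A | IsSyl p G Q}).toFinset

theorem mem_SylSet {G Q : Subgroup A} : Q ∈ SylSet p G ↔ IsSyl p G Q := by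
  unfold SylSet
  rw [Set.Finite.mem_toFinset]
  rfl

/-- Counting Sylow subgroups. -/
theorem sum_syl (G : Subgroup A) :
    ∑ Q ∈ SylSet p G, Nat.card (G ⊓ normalizer (Q : Set A) : Subgroup A) = Nat.card G := by
  have e : (SylSet p G) ≃ Sylow p G :=
    { toFun := fun Q => Sylow.ofCard (Q.1.subgroupOf G) (by
        have h := mem_SylSet.mp Q.2
        rw [card_sub h.1]; exact h.2)
      invFun := fun P => ⟨(P : Subgroup G).map G.subtype, mem_SylSet.mpr ⟨map_subtype_le _, by
        rw [Subgroup.card_map_of_injective G.subtype_injective]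
        exact P.card_eq_multiplicity⟩⟩
      left_inv := fun Q => by
        apply Subtype.ext
        have h := mem_SylSet.mp Q.2
        change (Q.1.subgroupOf G).map G.subtype = Q.1
        rw [Subgroup.subgroupOf_map_subtype, inf_eq_left.mpr h.1]
      right_inv := fun P => by
        apply Sylow.ext
        change ((P : Subgroup G).map G.subtype).subgroupOf G = (P : Subgroup G)
        exact Subgroup.comap_map_eq_self_of_injective G.subtype_injective _ }
  have hc : (SylSet p G).card = Nat.card (Sylow p G) := by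
    rw [← Nat.card_congr e, Nat.card_eq_fintype_card, Fintype.card_coe]
  have key : ∀ Q ∈ SylSet p G, Nat.card (Sylow p G) *
      Nat.card (G ⊓ normalizer (Q : Set A) : Subgroup A) = Nat.card G := by
    intro Q hQ
    have h := mem_SylSet.mp hQ
    have h1 : Nat.card (Q.subgroupOf G) = p ^ (Nat.card G).factorization p := by
      rw [card_sub h.1]; exact h.2
    let P : Sylow p G := Sylow.ofCard (Q.subgroupOf G) h1
    have h2 := P.card_eq_index_normalizer
    have h3 : (P : Subgroup G) = Q.subgroupOf G := rfl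
    have h4 : normalizer ((P : Subgroup G) : Set G) =
        (normalizer (Q : Set A)).subgroupOf G := by
      rw [h3, ← subgroupOf_normalizer_eq h.1]
    have h5 : Nat.card ((normalizer (Q : Set A)).subgroupOf G) =
        Nat.card (G ⊓ normalizer (Q : Set A) : Subgroup A) := by
      rw [← Subgroup.card_map_of_injective G.subtype_injective,
        Subgroup.subgroupOf_map_subtype, inf_comm]
    rw [h2, mul_comm]
    have h6 := Subgroup.card_mul_index (normalizer ((P : Subgroup G) : Set G))
    rw [h4, h5] at h6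
    rw [← h6]
    congr 1
    change Subgroup.index (normalizer ((P : Subgroup G) : Set G)) = _
    rw [h4]
  have hpos : 0 < Nat.card (Sylow p G) := Nat.card_pos
  have h7 : Nat.card (Sylow p G) *
      ∑ Q ∈ SylSet p G, Nat.card (G ⊓ normalizer (Q : Set A) : Subgroup A) =
      Nat.card (Sylow p G) * Nat.card G := by
    rw [Finset.mul_sum, Finset.sum_congr rfl key, Finset.sum_const, hc, smul_eq_mul]
  exact Nat.eq_of_mul_eq_mul_left hpos h7

end

end Pool.Agent.H49.WB
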